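import Pool.Agent.H52.Jam2

namespace Pool.Agent.Results.MP_585e0c_gt.Cubic

open RealInnerProductSpace Pool.Agent.H52

/-- Unit vectors with pairwise inner products at most one half. -/
def Kissing {n : ℕ} (C : Finset (EuclideanSpace ℝ (Fin n))) : Prop :=
  (∀ x ∈ C, ‖x‖ = 1) ∧ ∀ x ∈ C, ∀ y ∈ C, x ≠ y → ⟪x, y⟫ ≤ 1 / 2

/-- Every continuous motion through kissing configurations is rigid. -/
def Jammed {n : ℕ} (C : Finset (EuclideanSpace ℝ (Fin n))) : Prop :=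
  ∀ γ : C → unitInterval → EuclideanSpace ℝ (Fin n), (∀ x, Continuous (γ x)) →
    (∀ x, γ x 0 = x) → (∀ x t, ‖γ x t‖ = 1) → (∀ x y t, x ≠ y → ⟪γ x t, γ y t⟫ ≤ 1 / 2) →
    ∀ t, ∃ A : EuclideanSpace ℝ (Fin n) ≃ₗᵢ[ℝ] EuclideanSpace ℝ (Fin n), ∀ x, γ x t = A x

theorem result (m : ℕ) (hm : 2 ≤ m) : ∃ C : Finset (EuclideanSpace ℝ (Fin (2 ^ m))),
    Kissing C ∧ Jammed C ∧ 2 ^ m * (2 ^ m - 1) * (2 ^ m - 2) ≤ 64 * C.card := by
  let φ : Fin (2 ^ m) ≃ (Fin m → ZMod 2) := Fintype.equivOfCardEq (by simp)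
  have := Nat.pow_le_pow_right two_pos hm
  obtain ⟨C, h1, h2, h3, h4, h5⟩ := @Jam.main (Fin (2 ^ m)) _ _ φ.commRing (fun a => φ.injective (by
    show φ (φ.symm (φ a + φ a)) = φ (φ.symm 0)
    congr 2
    ext i
    exact CharTwo.add_self_eq_zero _)) (by simp; omega)
  refine ⟨C, ⟨h1, h2⟩, Jam.jam C h4 h5, le_trans (le_of_eq ?_) h3⟩
  simp [Nat.descFactorial]
  ring

end Pool.Agent.Results.MP_585e0c_gt.Cubic
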